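import Pool.Agent.H753.Cob.Final

/-! # Homology cobordant zero-surgeries with homotopic meridians, and knots which are not concordant

The answer to Q1 in the topological category is negative. The definitions are in
`Pool/Agent/H753/Cob/Stmt.lean` (`Exterior`, `IsZeroSurgery`, `IsHomologyCobordism`, `OrientationsMatch`,
`MeridiansHomotopic`, `Cobordant`), in `Pool/Graph/R_pool_sql_team_seeded_620a6dc7/Helper60/Fin/Stmt.lean` (`S3`, `Disc`, `d0`,
`ZeroFramed`, `Concordant`) and in `Pool/Graph/R_seed8/Helper534/LS/` (`HH`, `hmap`: integral singular
homology).

How the definitions match the problem. `K` and `J` are knots in the 3-sphere with 0-framed tubular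
neighbourhoods `eK`, `eJ` (locally flat knots); `Concordant` is concordance by a locally flat annulus,
orientations of the knots being ignored, so that `K` and `J` are not concordant for any choice of
orientations. `Y₀`, `Y₁` are the 0-surgeries on `K` and `J`. `W` is a compact topological 4-manifold whose
boundary is the disjoint union of `Y₀` and `Y₁`, and both inclusions induce isomorphisms of integral homology
(so `W` is orientable). `OrientationsMatch` says that a product `U × [0,1]`, where `U` is an open set
contained in both exteriors, is embedded in `W` compatibly with the inclusions of the exteriors in the two
ends; so if `W` is oriented by the orientation of `S³ × [0,1]` on this part, its boundary is `Y₁ ⊔ -Y₀` for the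
orientations of `Y₀` and `Y₁` given by that of `S³`, as it has to be for the surgeries on `K` and `J`
(as opposed to that on `K` and the mirror image of `J`). The meridians `v ↦ eK(1, v)` and `v ↦ eJ(1, v)` are
the positively oriented meridians of `K` and `J`, for one choice of the orientations of `K` and `J`.

Outline of the proof. `J = P(K)` is a satellite of the trefoil `K` with an unknotted pattern `P` of winding
number one for which `P(K)` is not topologically concordant to `K`: the theorem
`Pool.Agent.Helper60.Fin.main` of the library. The cobordism is the one of Cochran, Franklin, Hedden and
Horn: as `P` is unknotted, the 0-surgery on `P ⊂ S³` is `S² × S¹`, the boundary of `Z = B³ × S¹`, and `W` is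
the union of `Z` and `(exterior of K) × [0,1]`, glued along a neighbourhood in `S² × S¹` of the torus `T`
which is the boundary of the standard solid torus `V ⊃ P`. One end is the union of the exterior of `K` and of
the complementary solid torus of `V`, which is the 0-surgery on `K`, the other one is the union of the
exterior of `K`, of `V ∖ P` and of the new solid torus, which is the 0-surgery on `P(K)`. The homology is
computed with Mayer-Vietoris sequences, for a winding number one pattern, and both meridians are homotopic
in `Z`, whose fundamental group is infinite cyclic, to its generator: this uses that the linking number of
`P` and the core of the complementary solid torus is one. -/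

set_option autoImplicit false

namespace Pool.Agent.Results.MP_1e82ed_gt.CobordantNotConcordant

open Pool.Agent.H753.Cob
open Pool.Agent.Helper60.Fin (S3 Disc ZeroFramed Concordant)

/-- There are knots `K` and `J` in the 3-sphere, which are not topologically concordant, and an integral
homology cobordism `W` between the 0-surgeries `Y₀` on `K` and `Y₁` on `J` in which the meridians of `K` and
`J` are freely homotopic. -/
theorem result : ∃ (K J : Set S3) (eK eJ : Circle × Disc → S3) (hK : ZeroFramed eK K)
    (hJ : ZeroFramed eJ J), ¬ Concordant K J ∧ ¬ Concordant J K ∧ Cobordant hK.2.1 hJ.2.1 := main

end Pool.Agent.Results.MP_1e82ed_gt.CobordantNotConcordant
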